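import Pool.Agent.Helper14.GS.St

namespace Pool.Agent.Helper14.GS

theorem A3 : StA3 := by
  refine ⟨256, by norm_num, fun N => ⟨Nat.lcmUpto N, Nat.lcmUpto_pos N, ?_, ?_⟩⟩
  · have h1 := Chebyshev.psi_eq_log_lcmUpto N
    have h2 := Chebyshev.psi_le_const_mul_self (x := (N : ℝ)) (by positivity)
    rw [h1] at h2
    have h3 : (0 : ℝ) < (Nat.lcmUpto N : ℝ) := by
      exact_mod_cast Nat.lcmUpto_pos N
    have h4 : ((Nat.lcmUpto N : ℕ) : ℝ) ≤ Real.exp ((Real.log 4 + 4) * N) := by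
      rw [← Real.exp_log h3]
      exact Real.exp_le_exp.2 h2
    have h5 : Real.exp ((Real.log 4 + 4) * N) ≤ (256 : ℝ) ^ N := by
      rw [mul_comm, Real.exp_nat_mul]
      refine pow_le_pow_left₀ (Real.exp_pos _).le ?_ N
      rw [Real.exp_add, Real.exp_log (by norm_num)]
      have h6 : Real.exp 4 ≤ 64 := by
        have h7 := Real.exp_one_lt_d9
        have h8 : Real.exp 4 = Real.exp 1 ^ 4 := by
          rw [← Real.exp_nat_mul]; norm_num
        rw [h8]
        have h9 : Real.exp 1 ^ 4 ≤ (2.7182818286 : ℝ) ^ 4 :=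
          pow_le_pow_left₀ (Real.exp_pos _).le h7.le 4
        refine h9.trans ?_
        norm_num
      linarith
    have h6 := h4.trans h5
    exact_mod_cast h6
  · intro r hr1 hrN
    unfold Nat.lcmUpto
    exact Finset.dvd_lcm (f := id) (Finset.mem_Icc.2 ⟨hr1, hrN⟩)

end Pool.Agent.Helper14.GS
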