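import Pool.Agent.Helper14.GS.Defs

/-!
# Project GS (MP_627c93_nt), part D: a polynomial lower bound for `|a log p - b log q|`
(interpolation determinants with Feldman polynomials), and the finiteness theorem

Every `StDx : Prop` below is one module. Module `Dx` is the theorem
`theorem Dx (h.. : St..) : StDx`; the hypotheses allowed are named in the doc comment. Write it to
`Pool/Agent/<You>/GS/M_Dx.lean`, importing only `Pool.Agent.Helper14.GS.StD` (and Mathlib), unless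
the doc comment allows more.
-/

namespace Pool.Agent.Helper14.GS

open Polynomial Pool.Agent.Helper10.EP

/-- **D1** (integrality; no hypothesis). Let `d ≥ 1` be divisible by `1, ..., h`. Call `g ∈ ℝ[X]`
good if `d^t * g.coeff t ∈ ℤ` for all `t`; the good polynomials are closed under sums, products
and contain the integers (they are the polynomials `G(X/d)`, `G ∈ ℤ[X]`), and `X/i - 1` is good for
`1 ≤ i ≤ h` (`i ∣ d`), as is `X/m` for `1 ≤ m ≤ h`. `binP j (s + X)` is good for `j ≤ h`: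
by Vandermonde `binP j (s + X) = ∑_{m≤j} binom(s, j-m) binP m (X)` and
`binP m = ± (X/m) ∏_{i=1}^{m-1} (X/i - 1)` for `m ≥ 1`. (Alternatively, induction on `s`:
`binP j (s+1+X) = binP j (s+X) + binP (j-1) (s+X)`.) So `(felP h r)(s + X)` is good, and its
coefficient of `X^t` is `(hasseDeriv t (felP h r)).eval s` (`Polynomial.taylor_coeff`). -/
def StD1 : Prop := ∀ (h r d s t : ℕ), 1 ≤ h → 1 ≤ d → (∀ i : ℕ, 1 ≤ i → i ≤ h → i ∣ d) →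
  ∃ g : ℤ, (d : ℝ) ^ t * (hasseDeriv t (felP h r)).eval (s : ℝ) = g

/-- **D2** (size; no hypothesis). Let `M_j = ∏_{i<j} ((X + i)/(i+1))`; the coefficients of `binP j`
are bounded in absolute value by those of `M_j` (which are nonnegative), so those of
`felP h r` by those of `M = M_h^(r/h) M_(r%h)`. Hence, for `|z| ≤ R`,
`|aeval z (hasseDeriv t P)| ≤ ∑_m |P_m| binom(m,t) R^(m-t) ≤ (hasseDeriv t M).eval R
 ≤ M.eval (R+1)` (Taylor expansion `M(R+1) = ∑_t (hasseDeriv t M)(R)`, nonnegative terms), and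
`M_j(R+1) = binom(R+j, j) ≤ 2^(R+j) ≤ 2^(R+h)` for `j ≤ h`. So the bound is
`2^((R+h)(r/h+1))`. -/
def StD2 : Prop := ∀ (h r t R : ℕ) (z : ℂ), 1 ≤ h → ‖z‖ ≤ R →
  ‖aeval z (hasseDeriv t (felP h r))‖ ≤ (2 : ℝ) ^ ((R + 1 + h) * (r / h + 1))

/-- **D3** (degree; no hypothesis). `binP j` has degree `j` and leading coefficient `1/j! ≠ 0`;
`h (r/h) + r%h = r`. -/
def StD3 : Prop := ∀ h r : ℕ, 1 ≤ h → (felP h r).natDegree = r ∧ felP h r ≠ 0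

/-- **D4** (zero estimate; no hypothesis). Compare `Pool/Agent/Helper10/EP/A1.lean`
(`zero_estimate`), the same idea without multiplicities.
Suppose some `Q i ≠ 0`; let `I' = {i | Q i ≠ 0}`, `N' = |I'|`, `1 ≤ N' ≤ N`. For a variable `X` and
rows `e = 0, ..., N'-1`, columns `i ∈ I'`, let `M_(e,i) = Q_i(X + e) x_i^e` and `Δ = det M`.
Then `deg Δ ≤ ∑ deg Q_i` and the coefficient of `X^(∑ deg Q_i)` is
`∏ lc(Q_i) * Vandermonde(x_i) ≠ 0`, so `Δ ≠ 0` and `deg Δ ≤ N' (L₀ - 1) < N' L₀`.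
Let `0 ≤ s ≤ S - N'`. Let `V = (x_i^s ω_i^c)_{i ∈ I', c < N'}` (invertible: Vandermonde in the
distinct `ω_i`, `x_i > 0`). Then `(M V)_(e,c) = ∑_i Q_i(X+e) x_i^(e+s) ω_i^c`, and its Taylor
coefficient of order `t₀` at `X = s` is
`∑_i (hasseDeriv t₀ Q_i)(s+e) x_i^(s+e) ω_i^c = 0` for `t₀ + c < T` (since `s + e < S`). So the
column `c` of `M V` is divisible by `(X - s)^(T-c)` (for `c < T`), hence `Δ` by
`(X - s)^τ`, `τ = ∑_{c < min(T,N')} (T - c)`. The `(X-s)` are coprime for different `s`, so if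
`Δ ≠ 0` then `(S + 1 - N') τ ≤ deg Δ < N' L₀`. But if `N' ≥ T` then `τ = T(T+1)/2 ≥ T²/2` and
`(S+1-N') T²/2 ≥ (S+1-N) T²/2 ≥ N L₀ ≥ N' L₀`; if `N' < T` then
`τ = N' T - N'(N'-1)/2 ≥ N' T/2` and `(S+1-N') N' T/2 ≥ N' L₀`. Contradiction. -/
def StD4 : Prop := ∀ (ι : Type) [Fintype ι] [DecidableEq ι] (N L₀ S T : ℕ) (ω x : ι → ℝ)
    (Q : ι → ℝ[X]),
  Fintype.card ι = N → 1 ≤ T → N ≤ S → 2 * N * L₀ ≤ (S + 1 - N) * T ^ 2 →
  2 * L₀ ≤ (S + 1 - N) * T → Function.Injective ω → Function.Injective x → (∀ i, 0 < x i) →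
  (∀ i, (Q i).natDegree < L₀) →
  (∀ s t₀ t₁ : ℕ, s < S → t₀ + t₁ < T →
    ∑ i, (hasseDeriv t₀ (Q i)).eval (s : ℝ) * ω i ^ t₁ * x i ^ s = 0) →
  ∀ i, Q i = 0

/-- **D5** (hypotheses `StD3 StD4`). As `exists_det_ne_zero` in `Pool/Agent/Helper10/EP/A1.lean`:
the vectors `v_(s,t₀,t₁) = ((hasseDeriv t₀ (felP h c)) (s) ω_i^(t₁) x_i^s)_{(c,i)}`,
`s < S`, `t₀ + t₁ < T`, span `ℝ^(Fin L₀ × ι)`: a linear functional `(a_(c,i))` vanishing on all of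
them gives `Q_i = ∑_c a_(c,i) felP h c` of degree `< L₀` which are `0` by D4, so all `a = 0` by D3
(the degrees `c` of the `felP h c` are distinct). Choose a basis among the vectors. -/
def StD5 : Prop := ∀ (ι : Type) [Fintype ι] [DecidableEq ι] (N L₀ S T h : ℕ) (ω x : ι → ℝ),
  Fintype.card ι = N → 1 ≤ L₀ → 1 ≤ h → 1 ≤ T → N ≤ S → 2 * N * L₀ ≤ (S + 1 - N) * T ^ 2 →
  2 * L₀ ≤ (S + 1 - N) * T → Function.Injective ω → Function.Injective x → (∀ i, 0 < x i) →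
  ∃ f : Fin L₀ × ι → ℕ × ℕ × ℕ,
    (∀ ρ, (f ρ).1 < S ∧ (f ρ).2.1 + (f ρ).2.2 < T) ∧
    (Matrix.of fun ρ c : Fin L₀ × ι =>
      (hasseDeriv (f ρ).2.1 (felP h c.1)).eval ((f ρ).1 : ℝ) * ω c.2 ^ (f ρ).2.2 *
        x c.2 ^ (f ρ).1).det ≠ 0

/-- **D6** (rows of an interpolation determinant; no hypothesis). `f a c` is an entire function for
`a < T` and a column `c`. There are vectors `w_(a,m)` (`a < T`, `m < K + T`), the Taylor
coefficients `f_(a,c)(z) = ∑_{m<K+T} w_(a,m)(c) z^m + z^(K+T) g_(a,c)(z)`, `g` entire, such that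
for every row (a point `v`, coefficients `γ`, and `e`) there are entire functions `κ_(a,m)` (not
depending on the column) and `r_c` with
`∑_a ∑_j γ_(a,j) f_(a,c)^(j)(x v) + x^K e_c
  = ∑_a ∑_m x^(m-T) κ_(a,m)(x) w_(a,m)(c) + x^K r_c(x)`
(truncated subtraction): for `j < T` the `j`-th derivative of `z^m` at `z = x v` is
`m!/(m-j)! (x v)^(m-j)` if `j ≤ m` (and `0` otherwise), divisible by `x^(m-T)`, and the `j`-th
derivative of `z^(K+T) g(z)` is `z^K` times an entire function (induction on `j`: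
`(z^(n+1) g)' = z^n ((n+1) g + z g')`). For the Taylor expansion see `exists_taylor` in
`Pool/Agent/Helper10/EP/A2.lean` (may be imported). -/
def StD6 : Prop := ∀ (ι : Type) (T K : ℕ) (f : Fin T → ι → ℂ → ℂ),
  (∀ a c, Differentiable ℂ (f a c)) →
  ∃ w : Fin T → ℕ → ι → ℂ, ∀ (v : ℂ) (γ : Fin T → Fin T → ℂ) (e : ι → ℂ),
    ∃ (κ : Fin T → ℕ → ℂ → ℂ) (r : ι → ℂ → ℂ),
      (∀ a m, Differentiable ℂ (κ a m)) ∧ (∀ c, Differentiable ℂ (r c)) ∧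
      ∀ (x : ℂ) (c : ι),
        (∑ a, ∑ j, γ a j * iteratedDeriv (j : ℕ) (f a c) (x * v)) + x ^ K * e c
          = (∑ a, ∑ m ∈ Finset.range (K + T), x ^ (m - T) * κ a m x * w a m c) + x ^ K * r c x

/-- **D7** (counting; no hypothesis). `deg none = K`, `deg (some (a,m)) = m - T` (truncated).
`∑_ρ deg (φ ρ) ≥ ∑_ρ ∑_{d=1}^K 1[deg (φ ρ) ≥ d] = ∑_{d=1}^K (M - #{ρ | deg (φ ρ) < d})`, `M = |ι|`,
and for `1 ≤ d ≤ K` the rows with `deg < d` are mapped injectively to the pairs `(a,m)`,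
`m < T + d`; so there are at most `T (T + d)` of them, and `M - T(T+d) ≥ T (K - d)`. The sum is
`≥ T ∑_{d=1}^K (K - d) = T (K (K-1)/2)`. -/
def StD7 : Prop := ∀ (ι : Type) [Fintype ι] (T K : ℕ) (φ : ι → Option (Fin T × Fin (K + T))),
  (∀ ρ ρ' : ι, φ ρ = φ ρ' → φ ρ ≠ none → ρ = ρ') → T * (T + K) ≤ Fintype.card ι →
  T * (K * (K - 1) / 2) ≤ ∑ ρ, (match φ ρ with
    | none => K
    | some am => (am.2 : ℕ) - T)

/-- **D8** (hypotheses `StD6 StD7`). As `exists_factor` in `Pool/Agent/Helper10/EP/A2.lean`: expand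
the determinant by multilinearity in the rows, each row being
`∑_{(a,m)} x^(m-T) κ_(ρ,a,m)(x) w_(a,m) + x^K r_ρ(x)` (D6). The term of
`φ : ι → Option (Fin T × Fin (K+T))` is `x^(∑ deg (φ ρ))` times an entire function times a
determinant with rows `w_(φ ρ)` or `r_ρ(x)`; it vanishes if `φ` is not injective on the rows with
`φ ρ ≠ none` (two equal rows). Otherwise D7 bounds the exponent from below. -/
def StD8 : Prop := ∀ (ι : Type) [Fintype ι] [DecidableEq ι] (T K : ℕ) (f : Fin T → ι → ℂ → ℂ)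
    (v : ι → ℂ) (γ : ι → Fin T → Fin T → ℂ) (e : ι → ι → ℂ),
  (∀ a c, Differentiable ℂ (f a c)) → T * (T + K) ≤ Fintype.card ι →
  ∃ Ψ : ℂ → ℂ, Differentiable ℂ Ψ ∧ ∀ x : ℂ,
    (Matrix.of fun ρ c : ι =>
      (∑ a, ∑ j, γ ρ a j * iteratedDeriv (j : ℕ) (f a c) (x * v ρ)) + x ^ K * e ρ c).det
      = x ^ (T * (K * (K - 1) / 2)) * Ψ x

/-- **D9** (hypothesis `StD8`). Maximum principle, as `norm_det_le` in
`Pool/Agent/Helper10/EP/A2.lean`: `|det| ≤ M! Y^M` for `|x| = E` (`Matrix.det_le`), so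
`|Ψ(1)| ≤ M! Y^M / E^m`. -/
def StD9 : Prop := ∀ (ι : Type) [Fintype ι] [DecidableEq ι] (T K : ℕ) (f : Fin T → ι → ℂ → ℂ)
    (v : ι → ℂ) (γ : ι → Fin T → Fin T → ℂ) (e : ι → ι → ℂ) (E Y : ℝ),
  (∀ a c, Differentiable ℂ (f a c)) → T * (T + K) ≤ Fintype.card ι → 1 ≤ E →
  (∀ x : ℂ, ‖x‖ ≤ E → ∀ ρ c,
    ‖(∑ a, ∑ j, γ ρ a j * iteratedDeriv (j : ℕ) (f a c) (x * v ρ)) + x ^ K * e ρ c‖ ≤ Y) →
  ‖(Matrix.of fun ρ c : ι =>
      (∑ a, ∑ j, γ ρ a j * iteratedDeriv (j : ℕ) (f a c) (v ρ)) + e ρ c).det‖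
    ≤ (Fintype.card ι).factorial * Y ^ (Fintype.card ι) / E ^ (T * (K * (K - 1) / 2))

/-- **D10** (an identity for exponential polynomials; no hypothesis). Let
`F_a(z) = (aeval z (hasseDeriv a P)) exp(μ z)`. Then `F_a' = (a+1) F_(a+1) + μ F_a`
(`derivative (hasseDeriv a P) = (a+1) hasseDeriv (a+1) P`), i.e. `μ F_a = F_a' - (a+1) F_(a+1)`. By
induction on `t₁`: `μ^(t₁) F_(t₀) = ∑_{i ≤ t₁} g_i F_(t₀+i)^(t₁-i)` with numbers `g_i` depending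
only on `t₀, t₁, i` (apply the induction hypothesis to `F_(t₀)` and to `F_(t₀+1)`:
`μ^(t₁+1) F_(t₀) = d/dz (μ^(t₁) F_(t₀)) - (t₀+1) μ^(t₁) F_(t₀+1)`). All indices used satisfy
`t₀ + i < T` and `t₁ - i < T`. -/
def StD10 : Prop := ∀ (T t₀ t₁ : ℕ), t₀ + t₁ < T → ∃ γ : Fin T → Fin T → ℂ,
  ∀ (P : ℝ[X]) (μ z : ℂ),
    aeval z (hasseDeriv t₀ P) * μ ^ t₁ * Complex.exp (μ * z)
      = ∑ a : Fin T, ∑ j : Fin T, γ a j *
          iteratedDeriv (j : ℕ) (fun w => aeval w (hasseDeriv (a : ℕ) P) * Complex.exp (μ * w)) z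

/-- **D11** (the determinant inequality; hypotheses `StD1 StD2 StD5 StD9 StD10`). Notation:
`B ≥ a, b ≥ L`, `gcd(a,b) = 1`, `η = log q - (a/b) log p`, columns `(c, (λ₁,λ₂))` with
`c < k h`, `λ₁, λ₂ < L`; `ω = b λ₁ + a λ₂` and `x = p^(λ₁) q^(λ₂)` are injective functions of
`(λ₁,λ₂)` (`b ≥ L` and `gcd(a,b) = 1`; unique factorization). D5 (`N = L²`, `L₀ = k h`) gives rows
`ρ ↦ (s,t₀,t₁)` with a nonzero determinant `D` of `n_(ρ,c) = (hasseDeriv t₀ (felP h c))(s) ω^(t₁) x^s`.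
Multiply row `ρ` by `d^(t₀)`: all entries become integers (D1), so `|D| ≥ d^(-T M)`,
`M = k h L²`. For the upper bound let `μ = (λ₁ + (a/b) λ₂) log p`, `f_(a',c)(z) =
(aeval z (hasseDeriv a' (felP h c))) exp(μ z)`, `v_ρ = s`, `γ_ρ` = `(b / log p)^(t₁)` times the
coefficients of D10, and `e_(ρ,c) = n_(ρ,c) - n'_(ρ,c)`, where
`n' = (hasseDeriv t₀ (felP h c))(s) ω^(t₁) exp(μ s)` (note `b μ / log p = ω`). Then the matrix of
D9 is `(n_(ρ,c))`, and for `|x| ≤ E` its entries at `x` are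
`(aeval (x s) (hasseDeriv t₀ felP)) ω^(t₁) exp(μ x s) + x^K e_(ρ,c)`. The first term is at most
`2^((E S+1+h) k) (2 L B)^T exp(L (log p + log q + 1) E S)` (D2 with `R = E S`, `c/h + 1 ≤ k`;
`|μ| ≤ L (log p + (a/b) log p)` and `(a/b) log p = log q - η ≤ log q + 1`). Second term:
`x^s = p^(λ₁ s) q^(λ₂ s) = exp(μ s) exp(η λ₂ s)`, and `|η| λ₂ s ≤ |η| L S ≤ 1` so
`|exp(μ s) - x^s| = x^s |exp(-η λ₂ s) - 1| ≤ 2 x^s |η| L S`; times `E^K` and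
`|hasseDeriv t₀ felP (s)| ω^(t₁)` this is again at most the same bound, because
`2 |η| L S E^K ≤ 1`. So `Y` = twice the bound. -/
def StD11 : Prop := ∀ (p q a b B h d k L T S K E : ℕ), p.Prime → q.Prime → p ≠ q →
  Nat.Coprime a b → 1 ≤ L → L ≤ a → L ≤ b → a ≤ B → b ≤ B → 1 ≤ h → 1 ≤ k → 1 ≤ T → 1 ≤ E →
  1 ≤ d → (∀ i : ℕ, 1 ≤ i → i ≤ h → i ∣ d) → L ^ 2 ≤ S →
  2 * L ^ 2 * (k * h) ≤ (S + 1 - L ^ 2) * T ^ 2 → 2 * (k * h) ≤ (S + 1 - L ^ 2) * T →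
  T * (T + K) ≤ k * h * L ^ 2 →
  2 * |Real.log q - (a : ℝ) / b * Real.log p| * L * S * (E : ℝ) ^ K ≤ 1 →
  (E : ℝ) ^ (T * (K * (K - 1) / 2)) ≤
    (d : ℝ) ^ (T * (k * h * L ^ 2)) * (k * h * L ^ 2).factorial *
      (2 * ((2 : ℝ) ^ ((E * S + 1 + h) * k) * (2 * L * B) ^ T *
        Real.exp (L * (Real.log p + Real.log q + 1) * (E * S)))) ^ (k * h * L ^ 2)

/-- **D12** (numerical; no hypothesis). `c, c₀ ≥ 1` are natural numbers. Put `k₀ = 10 (c₀ + 2)`,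
`C₁ = 90 c`, `L = 80 C₁ k₀`, `T = C₁ L`, `k = C₁² k₀`, `h = n`, `S = (2k₀+1) n`, `E = 3`,
`M = k n L²`, `K = C₁ k₀ L n - T`, so that `T (T + K) = C₁² k₀ L² n = M`. For `n ≥ n₀`:
`L² ≤ S`; `2 L² k n = 2 L² C₁² k₀ n ≤ ((2k₀+1)n + 1 - L²) T²` because `n + 1 ≥ L²`; and
`2 k n ≤ 2 k₀ n C₁ L`. Let `B ≤ e^n`, `d ≤ e^(c₀ n)`. Divide the logarithm of the right side of the
claim by `M n`: it is at most
`T c₀ + (log M)/n + (log 2)/n + (3(2k₀+1) + 1/n + 1) k log 2 + T (1 + log(2L)/n) + 3 L c (2k₀+1)`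
`≤ C₁ L (c₀ + 2) + 8 C₁² k₀² + 9 L c k₀ + o(1) ≤ (0.1 + 0.1 + 0.1 + 0.05) C₁ k₀ L`
for `n ≥ n₀`. The logarithm of the left side divided by `M n` is
`T (K(K-1)/2) log 3 / (M n) ≥ (M - T²)(M/T - T - 1)/(2 M n) ≥ 0.45 C₁ k₀ L` for `n ≥ n₀`
(`M/T = C₁ k₀ L n`). -/
def StD12 : Prop := ∀ c c₀ : ℕ, 1 ≤ c → 1 ≤ c₀ → ∃ L T k k₀ κ n₀ : ℕ, 1 ≤ L ∧ 1 ≤ T ∧ 1 ≤ k ∧
  ∀ n : ℕ, n₀ ≤ n → ∃ K : ℕ, K ≤ κ * n ∧ L ^ 2 ≤ (2 * k₀ + 1) * n ∧
    2 * L ^ 2 * (k * n) ≤ ((2 * k₀ + 1) * n + 1 - L ^ 2) * T ^ 2 ∧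
    2 * (k * n) ≤ ((2 * k₀ + 1) * n + 1 - L ^ 2) * T ∧ T * (T + K) ≤ k * n * L ^ 2 ∧
    ∀ B d : ℝ, 1 ≤ B → B ≤ Real.exp n → 1 ≤ d → d ≤ Real.exp (c₀ * n) →
      d ^ (T * (k * n * L ^ 2)) * (k * n * L ^ 2).factorial *
        (2 * ((2 : ℝ) ^ ((3 * ((2 * k₀ + 1) * n) + 1 + n) * k) * (2 * L * B) ^ T *
          Real.exp (L * c * (3 * ((2 * k₀ + 1) * n))))) ^ (k * n * L ^ 2)
        < (3 : ℝ) ^ (T * (K * (K - 1) / 2))

/-- **D13** (hypotheses `StD11 StD12`, and `hA3 : ∃ C : ℕ, 1 ≤ C ∧ ∀ N : ℕ, ∃ d : ℕ, 1 ≤ d ∧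
d ≤ C ^ N ∧ ∀ r : ℕ, 1 ≤ r → r ≤ N → r ∣ d`). Let `c ≥ log p + log q + 1`, `c₀ ≥ 1` with
`C₃ ≤ e^(c₀)` (`C₃` the constant of `hA3`), and `L, ...` from D12. First let `gcd(a,b) = 1`,
`a + b ≥ B₀` and suppose `|a log p - b log q| < 1`; then `a, b ≥ L` if `B₀` is large, and with
`B = a + b`, `n = ⌈log B⌉ ≥ n₀`, `B ≤ e^n ≤ e B`. D11 and D12 together show that
`2 |η| L S 3^K > 1`, where `η = log q - (a/b) log p`, `|η| = |a log p - b log q| / b`. So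
`|a log p - b log q| ≥ |η| > (2 L S 3^(κ n))⁻¹ ≥ B^(-C)` for a suitable `C` (`S = (2k₀+1) n`,
`n ≤ log B + 1`). For the finitely many coprime `(a,b)` with `a + b < B₀` the number is
positive (`p^a ≠ q^b`); if it is `≥ 1` there is nothing to prove. In general divide by
`g = gcd(a,b)`: `|a log p - b log q| = g |a' log p - b' log q| ≥ c (a'+b')^(-C) ≥ c (a+b)^(-C)`. -/
def StD13 : Prop := ∀ p q : ℕ, p.Prime → q.Prime → p ≠ q → TwoLogs p q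

/-- **T1** (hypotheses `StD13` and `hB7 : ∀ A : ℝ, 0 < A → ∃ y : ℕ, 3 ≤ y ∧ Gap A y`). Let `C ≥ 1` be larger
than all the exponents of `TwoLogs p q`, `p ≠ q ∈ P₀`, and `c > 0` smaller than all the constants;
take `A = C + 1` and `y` from `hB7`. Let `P` be given and `x < z` consecutive, both in
`SUnit {p,q}`, `log x` large. `Gap A y` with `X = log x` gives a `y`-smooth `m` with
`log x < log m < log x + (log x)^(-A)`; so `z ≤ m` and `0 < log z - log x < (log x)^(-A)`. Let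
`g = gcd(x,z)`; `x/g` and `z/g` are coprime elements of `SUnit {p,q}`, `z/g > 1`. If `x/g = 1` (or
if `p = q`) then `z ≥ 2x`, impossible. So `{x/g, z/g} = {p^a, q^b}` with `a, b ≥ 1`, and
`log z - log x = |a log p - b log q| ≥ c (a+b)^(-C) ≥ c (4 log x)^(-C)`
(`a log 2 ≤ log z ≤ 2 log x`, the same for `b`, and `2/log 2 < 4`... use `a + b ≤ 8 log x`). For
`log x` large this contradicts `A = C + 1`. So `x` is bounded and `z ≤ 2x + 1`. -/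
def StT1 : Prop := ∀ P₀ : Finset ℕ, (∀ p ∈ P₀, p.Prime) → ∃ y : ℕ, ∀ P : Set ℕ,
  (∀ p ∈ P, p.Prime) → (∀ p : ℕ, p.Prime → p ≤ y → p ∈ P) →
  {xz : ℕ × ℕ | Consecutive P xz.1 xz.2 ∧ ∃ p ∈ P₀, ∃ q ∈ P₀,
    xz.1 ∈ SUnit {p, q} ∧ xz.2 ∈ SUnit {p, q}}.Finite

end Pool.Agent.Helper14.GS
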