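import Pool.Agent.Helper14.GS.St
import Pool.Agent.Helper14.GS.StD
import Pool.Agent.Helper2.GS.M_A1
import Pool.Agent.Helper42.GS.M_A2
import Pool.Agent.Helper14.GS.M_A3
import Pool.Agent.Helper2.GS.M_A4
import Pool.Agent.Helper42.GS.M_A5
import Pool.Agent.Helper42.GS.M_A6
import Pool.Agent.Helper12.GS.M_A7
import Pool.Agent.Helper41.GS.M_A8
import Pool.Agent.Helper92.GS.M_A9
import Pool.Agent.Helper8.GS.M_B1
import Pool.Agent.Helper8.GS.M_B2
import Pool.Agent.Helper8.GS.M_B3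
import Pool.Agent.Helper8.GS.M_B4
import Pool.Agent.Helper72.GS.M_B5
import Pool.Agent.Helper91.GS.M_B6
import Pool.Agent.Helper95.GS.M_B7
import Pool.Agent.Helper80.GS.M_D1
import Pool.Agent.Helper24.GS.M_D2
import Pool.Agent.Helper16.GS.M_D3
import Pool.Agent.Helper47.GS.M_D4
import Pool.Agent.Helper90.GS.M_D5
import Pool.Agent.Helper81.GS.M_D6
import Pool.Agent.Helper84.GS.M_D7
import Pool.Agent.Helper74.GS.M_D8
import Pool.Agent.Helper90.GS.M_D9
import Pool.Agent.Helper57.GS.M_D10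
import Pool.Agent.Helper61.GS.M_D11
import Pool.Agent.Helper95.GS.M_D12
import Pool.Agent.Helper6.GS.M_D13
import Pool.Agent.Helper91.GS.M_T1

/-!
# Project GS (MP_627c93_nt): assembly of the parts A, B, D
-/

namespace Pool.Agent.Helper14.GS

/-- the logarithms of the primes `≤ y` are not simultaneously well approximable -/
theorem stA9 : StA9 :=
  Pool.Agent.Helper92.GS.A9 (Pool.Agent.Helper41.GS.A8
    (Pool.Agent.Helper2.GS.A4 Pool.Agent.Helper2.GS.A1 Pool.Agent.Helper42.GS.A2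
      Pool.Agent.Helper14.GS.A3)
    Pool.Agent.Helper42.GS.A5 Pool.Agent.Helper42.GS.A6 Pool.Agent.Helper12.GS.A7)

/-- gaps between smooth numbers -/
theorem stB7 : StB7 :=
  Pool.Agent.Helper95.GS.B7 stA9 Pool.Agent.Helper72.GS.B5
    (Pool.Agent.Helper91.GS.B6 (Pool.Agent.Helper8.GS.B2 Pool.Agent.Helper8.GS.B1)
      Pool.Agent.Helper8.GS.B3 Pool.Agent.Helper8.GS.B4)

/-- linear forms in the logarithms of two primes -/
theorem stD13 : StD13 :=
  Pool.Agent.Helper6.GS.D13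
    (Pool.Agent.Helper61.GS.D11 Pool.Agent.Helper80.GS.D1 Pool.Agent.Helper24.GS.D2
      (Pool.Agent.Helper90.GS.D5 Pool.Agent.Helper16.GS.D3 Pool.Agent.Helper47.GS.D4)
      (Pool.Agent.Helper90.GS.D9
        (Pool.Agent.Helper74.GS.D8 Pool.Agent.Helper81.GS.D6 Pool.Agent.Helper84.GS.D7))
      Pool.Agent.Helper57.GS.D10)
    Pool.Agent.Helper95.GS.D12 Pool.Agent.Helper14.GS.A3

/-- the finiteness theorem -/
theorem stT1 : StT1 := Pool.Agent.Helper91.GS.T1 stD13 stB7

end Pool.Agent.Helper14.GS
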