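import Mathlib
import Pool.Agent.Helper10.EP.Defs

/-!
# Project GS (MP_627c93_nt): gaps between smooth numbers and consecutive prime powers, definitions
-/

namespace Pool.Agent.Helper14.GS

open Polynomial

/-- The Pade integral `∫_0^1 x^D (1-x)^D / ((x+n)(x+n+1)...(x+n+k-1))^(D+1) dx`. -/
noncomputable def padeI (k n D : ℕ) : ℝ :=
  ∫ x in (0 : ℝ)..1, x ^ D * (1 - x) ^ D * ∏ j ∈ Finset.range k, ((x + ((n + j : ℕ) : ℝ))⁻¹) ^ (D + 1)

/-- `Sim κ y`: the logarithms of the primes `q ≤ y` are not simultaneously well approximable with a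
common real factor: for all large real `θ`, one of the numbers `θ log q` has distance at least
`θ ^ (-κ)` from the integers. -/
def Sim (κ : ℝ) (y : ℕ) : Prop :=
  ∃ θ₀ : ℝ, 1 ≤ θ₀ ∧ ∀ θ : ℝ, θ₀ ≤ θ → ∀ N : ℕ → ℤ,
    ∃ q : ℕ, q.Prime ∧ q ≤ y ∧ θ ^ (-κ) ≤ |θ * Real.log q - N q|

/-- `Gap A y`: every interval `(X, X + X ^ (-A))` with `X` large contains the logarithm of a
positive integer all of whose prime factors are at most `y`. -/
def Gap (A : ℝ) (y : ℕ) : Prop :=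
  ∃ X₀ : ℝ, 1 ≤ X₀ ∧ ∀ X : ℝ, X₀ ≤ X → ∃ m : ℕ, 1 ≤ m ∧ (∀ p : ℕ, p.Prime → p ∣ m → p ≤ y) ∧
    X < Real.log m ∧ Real.log m < X + X ^ (-A)

/-- `TwoLogs p q`: a polynomial lower bound for `|a log p - b log q|`. -/
def TwoLogs (p q : ℕ) : Prop :=
  ∃ C c : ℝ, 0 < C ∧ 0 < c ∧ ∀ a b : ℕ, 1 ≤ a → 1 ≤ b →
    c * ((a : ℝ) + b) ^ (-C) ≤ |a * Real.log p - b * Real.log q|

/-- the binomial polynomial `X (X-1) ... (X-j+1) / j!` -/
noncomputable def binP (j : ℕ) : ℝ[X] :=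
  ∏ i ∈ Finset.range j, (C (((i : ℝ) + 1)⁻¹) * (X - C (i : ℝ)))

/-- Feldman polynomials: `felP h r` has degree `r`. -/
noncomputable def felP (h r : ℕ) : ℝ[X] := binP h ^ (r / h) * binP (r % h)

end Pool.Agent.Helper14.GS
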