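import Pool.Agent.Helper14.GS.Defs

/-!
# Project GS (MP_627c93_nt): statements of the modules, with complete proofs

Every `StXY : Prop` below is one module. Module `XY` is the theorem `theorem XY (h.. : St..) : StXY`;
the hypotheses allowed are named in the doc comment. Write it to
`Pool/Agent/<You>/GS/M_XY.lean`, importing only `Pool.Agent.Helper14.GS.St` (and Mathlib).
-/

namespace Pool.Agent.Helper14.GS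

open Polynomial Pool.Agent.Helper10.EP

/-! ## Part A: the logarithms of the primes `≤ y` are not simultaneously well approximable -/

/-- **A1** (partial fractions with integer coefficients; no hypothesis).
Write `w_j = (x + n + j)⁻¹`. For `j ≠ l` in `range k` the difference `l - j` is a nonzero integer
dividing `k!`, and `w_j w_l = (w_j - w_l) / (l - j)`; so
`k! * w_j w_l = g (w_j - w_l)` with the integer `g = k! / (l - j)`, `|g| ≤ k!`.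
Induction on `σ = ∑ s_j ≥ 1`. If at most one `s_j` is nonzero (`j` in the range), the product is
`w_j ^ σ`; take `c j σ = (k!)^σ` and all others `0`. Otherwise choose `j ≠ l` with
`s_j, s_l ≥ 1`. Then `(k!)^σ ∏ w^s = g ((k!)^(σ-1) ∏ w^(s - e_l) - (k!)^(σ-1) ∏ w^(s - e_j))`
(both exponent vectors have sum `σ - 1 ≥ 1`), and the induction hypothesis for the two vectors
gives the coefficients (extended by `0` beyond the new, smaller exponents); the sum of their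
absolute values is at most `2 k! (2 k!)^(σ-1)`. -/
def StA1 : Prop := ∀ (k n : ℕ) (s : ℕ → ℕ), 1 ≤ n → 1 ≤ ∑ j ∈ Finset.range k, s j →
  ∃ c : ℕ → ℕ → ℤ,
    (∑ j ∈ Finset.range k, ∑ i ∈ Finset.Icc 1 (s j), |c j i|) ≤
      (2 * (k.factorial : ℤ)) ^ (∑ j ∈ Finset.range k, s j) ∧
    ∀ x : ℝ, 0 ≤ x →
      (k.factorial : ℝ) ^ (∑ j ∈ Finset.range k, s j) *
          ∏ j ∈ Finset.range k, ((x + ((n + j : ℕ) : ℝ))⁻¹) ^ (s j)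
        = ∑ j ∈ Finset.range k, ∑ i ∈ Finset.Icc 1 (s j),
            (c j i : ℝ) * ((x + ((n + j : ℕ) : ℝ))⁻¹) ^ i

/-- **A2** (one node; no hypothesis).
Put `w = x + m`. Then `x^D (1-x)^D = (w - m)^D ((m+1) - w)^D = ∑_{l ≤ 2D} b_l w^l` with
`b_l = ∑_{u+v=l} binom(D,u) (-m)^(D-u) binom(D,v) (-1)^v (m+1)^(D-v)`, an integer divisible by
`m^(D-l)` and by `(m+1)^(D-l)` for `l ≤ D` (as `u, v ≤ l`), and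
`|b_l| ≤ (1+m)^D (1+m+1)^D ≤ (m+2)^(2D)`. Hence
`∫ = ∑_l b_l ∫_m^(m+1) w^(l-i) dw`. The term `l = i - 1` is `b_(i-1) log ((m+1)/m)`: take
`A = b_(i-1)`. For `l ≥ i` the term is `b_l ((m+1)^(l-i+1) - m^(l-i+1)) / (l-i+1)` with
`1 ≤ l-i+1 ≤ 2D`, an integer after multiplication by `d`. For `l < i - 1`, with `e = i-1-l ≥ 1`,
`e ≤ D - l` and `e ≤ 2D`: the term is `b_l (m^(-e) - (m+1)^(-e)) / e`, and `b_l m^(-e)`,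
`b_l (m+1)^(-e)` are integers. (If `b_l` with `i - 1 > 2 D` is needed: `i - 1 ≤ D`, so no.) -/
def StA2 : Prop := ∀ (D m i d : ℕ), 1 ≤ m → 1 ≤ i → i ≤ D + 1 →
  (∀ r : ℕ, 1 ≤ r → r ≤ 2 * D → r ∣ d) →
  ∃ A r : ℤ, |A| ≤ ((m : ℤ) + 2) ^ (2 * D) ∧
    (d : ℝ) * ∫ x in (0 : ℝ)..1, x ^ D * (1 - x) ^ D * ((x + (m : ℝ))⁻¹) ^ i
      = d * A * Real.log (((m : ℝ) + 1) / m) + r

/-- **A3** (no hypothesis). Take `d = Chebyshev.lcmUpto N`; `Chebyshev.psi_eq_log_lcmUpto` and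
`Chebyshev.psi_le_const_mul_self` give `d ≤ exp ((log 4 + 4) N) ≤ 256 ^ N`. -/
def StA3 : Prop := ∃ C : ℕ, 1 ≤ C ∧ ∀ N : ℕ, ∃ d : ℕ, 1 ≤ d ∧ d ≤ C ^ N ∧
  ∀ r : ℕ, 1 ≤ r → r ≤ N → r ∣ d

/-- **A4** (hypotheses `StA1 StA2 StA3`). Given `k`, let `C₃` be the constant of A3 and
`C = 2 * (2 k!)^k * C₃^2` (any larger constant will do). Given `n, N`, let `d` be the number of A3
for `2N`, and `Δ = (k!)^(k(N+1)) d`. For `D ≤ N` apply A1 with `s_j = D+1`; integrate over `[0,1]`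
against `x^D (1-x)^D` and apply A2 for `m = n + j` (`1 ≤ i ≤ D+1`):
`Δ padeI = (k!)^(k(N-D)) ∑_j ∑_i c_{j,i} (d A_{j,i} log((n+j+1)/(n+j)) + r_{j,i})`. So
`u_j = (k!)^(k(N-D)) d ∑_i c_{j,i} A_{j,i}`, and
`∑ |u_j| ≤ (k!)^(k(N-D)) d (2 k!)^(k(D+1)) (n+k+1)^(2D) ≤ (2 k!)^(k(N+1)) C₃^(2N) (n+k+1)^(2D)`
(here `m + 2 ≤ n + k + 1`). -/
def StA4 : Prop := ∀ k : ℕ, 1 ≤ k → ∃ C : ℕ, 1 ≤ C ∧ ∀ n : ℕ, 1 ≤ n → ∀ N : ℕ,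
  ∃ Δ : ℕ, 1 ≤ Δ ∧ Δ ≤ C ^ (N + 1) ∧ ∀ D ≤ N, ∃ (p : ℤ) (u : ℕ → ℤ),
    (Δ : ℝ) * padeI k n D = p +
      ∑ j ∈ Finset.range k, (u j : ℝ) * Real.log ((((n + j : ℕ) : ℝ) + 1) / ((n + j : ℕ) : ℝ)) ∧
    (∑ j ∈ Finset.range k, |u j|) ≤ (C : ℤ) ^ (N + 1) * ((n : ℤ) + k + 1) ^ (2 * D)

/-- **A5** (bounds for the integral; no hypothesis). The integrand is continuous and nonnegative
on `[0,1]`, positive on `(0,1)`. Upper bound: `x^D (1-x)^D ≤ 1` and `(x+n+j)⁻¹ ≤ n⁻¹`. Lower bound: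
on `[1/4, 3/4]` the integrand is at least `(3/16)^D (n+k)^(-k(D+1))` (`x + n + j ≤ n + k`), so the
integral is at least `(1/2) (3/16)^D (n+k)^(-k(D+1)) ≥ 8^(-(D+1)) (n+k)^(-k(D+1))`. Last claim: the
integrand for `D'` is the integrand for `D` times `(x (1-x) ∏ (x+n+j)⁻¹)^(D'-D) ≤ n^(-k(D'-D))`. -/
def StA5 : Prop := ∀ k n D : ℕ, 1 ≤ k → 1 ≤ n →
  0 < padeI k n D ∧ padeI k n D ≤ ((n : ℝ) ^ (k * (D + 1)))⁻¹ ∧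
  ((8 : ℝ) ^ (D + 1) * ((n : ℝ) + k) ^ (k * (D + 1)))⁻¹ ≤ padeI k n D ∧
  ∀ D' : ℕ, D ≤ D' → padeI k n D' ≤ ((n : ℝ) ^ (k * (D' - D)))⁻¹ * padeI k n D

/-- **A6** (arithmetic core, elementary; no hypothesis).
Put `Z_i = ∑ u_{ij} h_j`. Then `θ I_i = θ p_i + Z_i + e_i` with `|e_i| ≤ 2 ε W`. Note `W ≥ 1`, so
`θ I₁ < 1/8` and `2 ε W ≤ 2 ε W² < 1/8`; also `2 ε W ≤ θ I₂ / 2 ≤ θ I₁ / 2`.
(1) `p₁ = 0` is impossible: then `|Z₁| ≤ θ I₁ + 2 ε W < 1`, so `Z₁ = 0` and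
`θ I₁ = e₁ ≤ θ I₁ / 2`, although `θ I₁ > 0`. The same for `p₂` (`θ I₂ ≤ θ I₁ < 1/8`).
(2) The integer `p₂ Z₁ - p₁ Z₂ = p₂ (θ p₁ + Z₁) - p₁ (θ p₂ + Z₂)` has absolute value at most
`W (θ I₁ + 2εW) + W (θ I₂ + 2εW) ≤ 2 W θ I₁ + 4 ε W² < 1`, so it is `0`. Hence
`p₂ (θ I₁ - e₁) = p₁ (θ I₂ - e₂)`.
(3) So `|p₂| θ I₁ / 2 ≤ |p₁| (3/2) θ I₂ ≤ (3/2) W θ I₂`, i.e. `|p₂| I₁ ≤ 3 W I₂ < I₁`, so
`|p₂| < 1`, a contradiction to (1). -/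
def StA6 : Prop := ∀ (k : ℕ) (l : ℕ → ℝ) (h : ℕ → ℤ) (θ ε W I₁ I₂ : ℝ) (p₁ p₂ : ℤ)
    (u₁ u₂ : ℕ → ℤ),
  0 < θ → 0 ≤ ε → 1 ≤ W → 0 < I₁ → 0 < I₂ → I₂ ≤ I₁ →
  I₁ = p₁ + ∑ j ∈ Finset.range k, (u₁ j : ℝ) * l j →
  I₂ = p₂ + ∑ j ∈ Finset.range k, (u₂ j : ℝ) * l j →
  (∀ j < k, |θ * l j - h j| ≤ 2 * ε) →
  (∑ j ∈ Finset.range k, |(u₁ j : ℝ)|) ≤ W → (∑ j ∈ Finset.range k, |(u₂ j : ℝ)|) ≤ W →
  |(p₁ : ℝ)| ≤ W → |(p₂ : ℝ)| ≤ W →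
  W * θ * I₁ < 1 / 8 → 16 * ε * W ^ 2 < 1 → 4 * ε * W ≤ θ * I₂ → 3 * W * I₂ < I₁ → False

/-- **A7** (numerical choice of the parameters; no hypothesis).
Take `n = (2^(k+10) C^2)^(k+5)` (any large number: what is used is `n ≥ 2k+2`, `n ≥ 16`,
`n ≥ (8C)^(k+5)`, `n ≥ (2^(k+3))^(k+5)`, `n ≥ C^(k+5)`), `A = k^2 - 2k - 11` and `θ₀ = n^(A k)`.
For `θ ≥ θ₀` let `t` be the least natural number with `θ ≤ n^(A t)`; then `t ≥ k` (as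
`θ ≥ n^(A k)`) and `n^(A (t-1)) ≤ θ`. With `N = (k+4)t`, `N + 1 ≤ (k+5) t`:
`W = 2 C^(N+1) (2n)^(2N) ≤ (8C)^((k+5)t) n^(2N) ≤ n^((2k+9)t)`, `C^(N+1) ≤ n^t`,
`8^(N+1) 2^(k(N+1)) ≤ n^t`.
(a) `8 W θ C^(N+1) ≤ 8 n^((2k+10)t) n^(A t) = 8 n^((k^2-1)t) < n^(k(kt+1))`.
(d) `3 W < 16 n^((2k+9)t) ≤ n^((2k+10)t) ≤ n^(4kt)`.
Write `ε = θ^(-20/k)`; `A * 20/k ≥ 20k - 51` and so `θ^(20/k) ≥ n^((20k-51)(t-1))`.
(b) `16 ε W² < 1`: `16 W² < n^((4k+19)t)` (use `16 ≤ n ≤ n^t`, strictness from `t ≥ 2` or from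
`16 < n`), and `(20k-51)(t-1) ≥ (4k+19)t` since `(16k-70)t ≥ 20k-51` for `t ≥ 2`.
(c) `4 ε W 8^(N+1) (2n)^(k(N+1)) ≤ ε n^(t+(2k+9)t+t+k(k+4)t+k) = ε n^((k^2+6k+11)t+k)`, and
`θ^(1+20/k) ≥ n^((k^2+18k-62)(t-1)) ≥ n^((k^2+6k+11)t+k)` since
`(12k-73)t ≥ k^2+19k-62` for `t ≥ k ≥ 20`. -/
def StA7 : Prop := ∀ k C : ℕ, 20 ≤ k → 1 ≤ C → ∃ n : ℕ, 2 * k + 2 ≤ n ∧ ∃ θ₀ : ℝ, 1 ≤ θ₀ ∧
  ∀ θ : ℝ, θ₀ ≤ θ → ∃ t : ℕ, 1 ≤ t ∧ ∃ W : ℝ,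
    W = 2 * (C : ℝ) ^ ((k + 4) * t + 1) * (2 * n) ^ (2 * ((k + 4) * t)) ∧
    8 * W * θ * (C : ℝ) ^ ((k + 4) * t + 1) < (n : ℝ) ^ (k * (k * t + 1)) ∧
    16 * θ ^ (-(20 / (k : ℝ))) * W ^ 2 < 1 ∧
    4 * θ ^ (-(20 / (k : ℝ))) * W * (8 : ℝ) ^ ((k + 4) * t + 1) *
      (2 * n) ^ (k * ((k + 4) * t + 1)) ≤ θ ∧
    3 * W < (n : ℝ) ^ (4 * k * t)

/-- **A8** (hypotheses `StA4 StA5 StA6 StA7`). Given `k ≥ 20`, let `C` be the constant of A4 and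
`n, θ₀` the numbers of A7. Given `θ ≥ θ₀` take `t, W` from A7; `N = (k+4)t`, `Δ, p, u` from A4,
`D₁ = kt`, `D₂ = N`. Suppose `|θ log(n+j) - N_j| < ε = θ^(-20/k)` for all `j ≤ k` (contrary to the
claim). Apply A6 with `l_j = log((n+j+1)/(n+j))`, `h_j = N_(j+1) - N_j`, `I_i = Δ padeI k n D_i`.
Checks: `|u|`-sums `≤ C^(N+1) (n+k+1)^(2D) ≤ C^(N+1)(2n)^(2N) ≤ W`;
`|p| ≤ Δ padeI + ∑|u_j| l_j ≤ C^(N+1) + C^(N+1) (2n)^(2N) ≤ W` (`0 ≤ l_j ≤ 1`, `padeI ≤ 1`);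
`W θ I₁ ≤ W θ C^(N+1) n^(-k(kt+1)) < 1/8`; `θ I₂ ≥ θ padeI k n N ≥
θ (8^(N+1) (n+k)^(k(N+1)))⁻¹ ≥ 4 ε W` (`n + k ≤ 2n`); `I₂ ≤ n^(-4kt) I₁`, so `3 W I₂ < I₁` and
`I₂ ≤ I₁`. -/
def StA8 : Prop := ∀ k : ℕ, 20 ≤ k → ∃ n : ℕ, 1 ≤ n ∧ ∃ θ₀ : ℝ, 1 ≤ θ₀ ∧
  ∀ θ : ℝ, θ₀ ≤ θ → ∀ N : ℕ → ℤ,
    ∃ j ≤ k, θ ^ (-(20 / (k : ℝ))) ≤ |θ * Real.log ((n + j : ℕ) : ℝ) - N j|

/-- **A9** (hypothesis `StA8`). Choose `k ≥ 20` with `20/k < κ` and `n, θ₁` from A8; `y = n + k`.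
Let `N : ℕ → ℤ` and suppose `|θ log q - N q| < θ^(-κ)` for all primes `q ≤ y`. For `j ≤ k` put
`N'_j = ∑_q v_q(n+j) N q` (sum over the prime factorization of `n + j`); then
`|θ log(n+j) - N'_j| ≤ ∑_q v_q(n+j) θ^(-κ) ≤ (n+k) θ^(-κ)` (the number of prime factors of `m`
counted with multiplicity is at most `m`). For `θ` large this is `< θ^(-20/k)`, a contradiction
to A8. -/
def StA9 : Prop := ∀ κ : ℝ, 0 < κ → ∃ y : ℕ, Sim κ y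

/-! ## Part B: gaps between smooth numbers -/

/-- **B1** (an identity; no hypothesis). With `e_j = cos (j α)`: the square of the modulus of
`∑_{j<J} exp(i j α)` is `J + 2 ∑_{j=1}^{J-1} (J-j) cos(jα)`; multiply by `cos α - c` and use
`2 cos α cos(jα) = cos((j+1)α) + cos((j-1)α)`. (Or induction on `J`.) -/
def StB1 : Prop := ∀ (J : ℕ) (c α : ℝ), 1 ≤ J →
  (Real.cos α - c) * ((∑ j ∈ Finset.range J, Real.cos (j * α)) ^ 2 +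
      (∑ j ∈ Finset.range J, Real.sin (j * α)) ^ 2)
    = ((J : ℝ) - 1 - c * J) +
      2 * ∑ j ∈ Finset.Icc 1 (J - 1), ((J : ℝ) - j) * (1 - c) * Real.cos (j * α) + Real.cos (J * α)

/-- **B2** (hypothesis `StB1`). Let `c = cos(2πδ/L)`, so `0 ≤ 1 - c`. Suppose `|v_x| ≥ δ` for all
`x`. Then, with `α = 2π v_x / L`, `δ ≤ |v_x| ≤ L/2` gives `cos α ≤ c` (`cos` is even and decreasing
on `[0, π]`), so the left side of B1 is `≤ 0`. Sum B1 over `x ∈ X`, `|X| = M`: with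
`S_j = ∑_x cos(2π (j/L) v_x) ≥ -M/(4J)`,
`0 ≥ M (J(1-c) - 1) + 2 ∑_{j=1}^{J-1} (J-j)(1-c) S_j + S_J
   ≥ M (J(1-c) - 1) - (M/(4J)) (J(J-1)(1-c) + 1) ≥ M (J(1-c) - 1 - J(1-c)/4 - 1/4)
   = M ((3/4) J(1-c) - 5/4) ≥ M/4 > 0`. -/
def StB2 : Prop := ∀ (X : Type) [Fintype X] [Nonempty X] (v : X → ℝ) (L δ : ℝ) (J : ℕ),
  0 < δ → δ ≤ L / 2 → (∀ x, |v x| ≤ L / 2) → 1 ≤ J →
  2 ≤ J * (1 - Real.cos (2 * Real.pi * δ / L)) →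
  (∀ j : ℕ, 1 ≤ j → j ≤ J →
    -((Fintype.card X : ℝ) / (4 * J)) ≤ ∑ x, Real.cos (2 * Real.pi * (j / L) * v x)) →
  ∃ x, |v x| < δ

/-- **B3** (product formula; no hypothesis). The sum over all `f` of
`exp(2πiθ v_f)`, `v_f = ∑_q ∑_a ((f q a).1 - (f q a).2) w_q - τ`, factorizes
(`Finset.prod_univ_sum` / `Fintype.piFinset_univ`) as
`exp(-2πiθτ) ∏_q ∏_a (∑_{(u,v)} exp(2πiθ(u-v) w_q)) = exp(-2πiθτ) ∏_q (|Φ_q|^2)^r`; take real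
parts. -/
def StB3 : Prop := ∀ (Q : Finset ℕ) (w : ℕ → ℝ) (E r : ℕ) (τ θ : ℝ),
  ∑ f : (Q → Fin r → Fin E × Fin E),
      Real.cos (2 * Real.pi * θ *
        ((∑ q : Q, ∑ a : Fin r, (((f q a).1 : ℕ) - ((f q a).2 : ℕ) : ℝ) * w q) - τ))
    = Real.cos (2 * Real.pi * θ * τ) *
      ∏ q ∈ Q, (‖∑ x ∈ Finset.range E, Complex.exp (2 * Real.pi * Complex.I * (θ * (x * w q) : ℝ))‖
        ^ 2) ^ r

/-- **B4** (geometric sum; no hypothesis). If `t` is an integer the right factor is `0`. Otherwise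
`|∑_{x<E} z^x| = |z^E - 1| / |z - 1| ≤ 2 / (2 |sin π t|)`, `z = exp(2πit)`, and
`|sin π t| ≥ 2 |t - round t|` (`Real.mul_le_sin` or `Real.mul_abs_le_abs_sin`). -/
def StB4 : Prop := ∀ (E : ℕ) (t : ℝ),
  ‖∑ x ∈ Finset.range E, Complex.exp (2 * Real.pi * Complex.I * (x * t : ℝ))‖ *
    (2 * |t - round t|) ≤ 1

/-- **B5** (compactness; no hypothesis). The function
`θ ↦ max |θ log 2 - round(θ log 2)| |θ log 3 - round(θ log 3)|` is positive on `[θ₁, θ₀]`: if both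
vanish, `θ log 2 = a`, `θ log 3 = b` with integers `a, b > 0` and `2^b = 3^a`, impossible. It is
continuous (the distance to the integers is `1`-Lipschitz), so it has a positive minimum `c₀`. -/
def StB5 : Prop := ∀ θ₁ θ₀ : ℝ, 0 < θ₁ → ∃ c₀ : ℝ, 0 < c₀ ∧ ∀ θ : ℝ, θ₁ ≤ θ → θ ≤ θ₀ →
  ∀ N : ℕ → ℤ, c₀ ≤ |θ * Real.log 2 - N 2| ∨ c₀ ≤ |θ * Real.log 3 - N 3|

/-- **B6** (hypotheses `StB2 StB3 StB4`). Let `Q` be the set of primes `≤ y`, `Λ = ∑_{q∈Q} log q`,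
`E = ⌊X/Λ⌋`, `τ = X - EΛ ∈ [0, Λ)`, `L = 2 r E' Λ`. Apply B2 to the type
`Q → Fin r → Fin E' × Fin E'` and `v_f = ∑_q ∑_a ((f q a).1 - (f q a).2) log q - τ`;
`|v_f| ≤ r (E'-1) Λ + Λ ≤ r E' Λ = L/2`. Let `1 ≤ j ≤ J`, `θ = j/L`. The sum of the cosines is, by
B3, `cos(2πθτ) ∏_q |Φ_q|^(2r)`, `|Φ_q| ≤ E'`. If `θ ≤ 1/(4Λ)` then `0 ≤ 2πθτ ≤ π/2` and the sum is
`≥ 0`. Otherwise there is `q₀ ∈ Q` with `|θ log q₀ - round| ≥ ρ`, so `|Φ_(q₀)| ≤ 1/(2ρ)` by B4, and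
the absolute value of the sum is at most
`E'^(2r(|Q|-1)) (2ρ)^(-2r) = |X| (2 E' ρ)^(-2r) ≤ |X| / (4J)`, where `|X| = E'^(2r|Q|)`. So there is
`f` with `|v_f| < δ`. The exponents `e_q = E + ∑_a ((f q a).1 - (f q a).2) ≥ E - r(E'-1) ≥ 0` are
natural numbers; for `m = ∏ q^(e_q)`, `log m = E Λ + τ + v_f = X + v_f`. -/
def StB6 : Prop := ∀ (y r E' J : ℕ) (X δ ρ Λ : ℝ),
  Λ = ∑ q ∈ (Finset.range (y + 1)).filter Nat.Prime, Real.log q →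
  3 ≤ y → 1 ≤ r → 1 ≤ E' → 1 ≤ J → 0 < X → 0 < ρ → 0 < δ →
  ((r * E' : ℕ) : ℝ) ≤ X / Λ → δ ≤ r * E' * Λ →
  2 ≤ J * (1 - Real.cos (2 * Real.pi * δ / (2 * r * E' * Λ))) →
  (∀ θ : ℝ, 1 / (4 * Λ) ≤ θ → θ ≤ J / (2 * r * E' * Λ) → ∀ N : ℕ → ℤ,
    ∃ q : ℕ, q.Prime ∧ q ≤ y ∧ ρ ≤ |θ * Real.log q - N q|) →
  4 * (J : ℝ) ≤ (2 * E' * ρ) ^ (2 * r) →
  ∃ m : ℕ, 1 ≤ m ∧ (∀ p : ℕ, p.Prime → p ∣ m → p ≤ y) ∧ |Real.log m - X| < δ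

/-- **B7** (hypotheses `StA9 StB5 StB6`). Let `κ = 1/(16(A+1))`, `y ≥ 3` with `Sim κ y` (if
`Sim κ y` then `Sim κ y'` for `y' ≥ y`), `θ₀` its threshold, `Λ` as in B6 (`Λ > 0`), `c₀` from B5
with `θ₁ = 1/(4Λ)`, `r` a natural number `≥ 2A + 4`. For `X` large put `X' = X + X^(-A)/2`,
`δ = X^(-A)/2`, `E' = ⌊X'/(rΛ)⌋` (so `E' ≥ X^(15/16)`, and `rE' ≤ X'/Λ`), `L = 2 r E' Λ ≤ 2X' ≤ 3X`,
`J = ⌈L²/(4δ²)⌉`. As `1 - cos u ≥ 2u²/π²` for `|u| ≤ π`, `J (1 - cos(2πδ/L)) ≥ 8 J δ²/L² ≥ 2`.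
`J ≤ L²/(4δ²) + 1 ≤ 9 X² X^(2A) + 1 ≤ X^(2A+3)`, and `L ≥ 1`, so `J/L ≤ X^(2A+3)`.
Let `ρ = X^(-3/16)`. For `1/(4Λ) ≤ θ ≤ θ₀` some `|θ log q - N q| ≥ c₀ ≥ ρ` (`q = 2` or `3`); for
`θ₀ ≤ θ ≤ J/L` some `|θ log q - N q| ≥ θ^(-κ) ≥ X^(-(2A+3)κ) ≥ ρ`, as `(2A+3)/(16(A+1)) ≤ 3/16`.
`2E'ρ ≥ X^(3/4)`, so `(2E'ρ)^(2r) ≥ X^(3r/2) ≥ X^(3A+6) ≥ 4 X^(2A+3) ≥ 4J`. So B6 (for `X'`) gives
`m` with `|log m - X'| < δ`, i.e. `X < log m < X + X^(-A)`. -/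
def StB7 : Prop := ∀ A : ℝ, 0 < A → ∃ y : ℕ, 3 ≤ y ∧ Gap A y

/-! ## Part C: sparseness of the consecutive prime powers -/

/-- **C1** (no hypothesis). `P` is the set of primes. Let `x = p^a`, `z = q^b` be consecutive.
By `Gap 3 y` (with `X = log x`) there is a `y`-smooth `m` with
`log x < log m < log x + (log x)^(-3)`; `m ∈ SUnit P`, so `z ≤ m` and
`0 < log z - log x < (log x)^(-3)`. If `p = q` then `z ≥ 2x`, impossible when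
`(log x)^(-3) ≤ log 2`. If `g = gcd(a,b) > 1` then
`w = p^(a - a/g) q^(b/g) ∈ SUnit P` has `log w = log x + (log z - log x)/g`, strictly between,
impossible. So `gcd(a,b) = 1`. (`X₁` is any number `≥ max X₀ 2`; `2^(-3) < log 2`.) -/
def StC1 : Prop := ∀ y : ℕ, 3 ≤ y → Gap 3 y → ∃ X₁ : ℝ, 2 ≤ X₁ ∧ ∀ P : Set ℕ,
  (∀ p ∈ P, p.Prime) → (∀ p : ℕ, p.Prime → p ≤ y → p ∈ P) → ∀ x z : ℕ, Consecutive P x z →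
  IsPrimePow x → IsPrimePow z → X₁ ≤ Real.log x →
  ∃ p q a b : ℕ, p ∈ P ∧ q ∈ P ∧ p ≠ q ∧ 1 ≤ a ∧ 1 ≤ b ∧ Nat.Coprime a b ∧ x = p ^ a ∧ z = q ^ b ∧
    0 < b * Real.log q - a * Real.log p ∧
    b * Real.log q - a * Real.log p < (a * Real.log p) ^ (-(3 : ℝ))

/-- **C2** (no hypothesis). Let `δ = b log q - a log p`, `δ' = b' log q - a' log p`. As
`a/b ≠ a'/b'` (both reduced, `a < a'`), `|a' b - a b'| ≥ 1`, and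
`(a' b - a b') log q = a' δ - a δ'`, so
`log q ≤ max(a' δ, a δ') ≤ a' (a log p)^(-3)` (since `a (a' log p)^(-3) ≤ a' (a log p)^(-3)`).
Hence `a' ≥ log q (log p)^3 a^3 ≥ (log 2)^4 a^3 ≥ a^2` for `a ≥ 5` (`(log 2)^4 > 1/5`). -/
def StC2 : Prop := ∀ p q a b a' b' : ℕ, p.Prime → q.Prime → 5 ≤ a → a < a' → 1 ≤ b → 1 ≤ b' →
  Nat.Coprime a b → Nat.Coprime a' b' →
  0 < b * Real.log q - a * Real.log p →
  b * Real.log q - a * Real.log p < (a * Real.log p) ^ (-(3 : ℝ)) →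
  0 < b' * Real.log q - a' * Real.log p →
  b' * Real.log q - a' * Real.log p < (a' * Real.log p) ^ (-(3 : ℝ)) → a ^ 2 ≤ a'

/-- **C3** (no hypothesis). If `a_1 < a_2 < ... < a_r ≤ Y` are the elements of `S`, then
`a_(j+1) ≥ a_j^2`, so `a_r ≥ 5^(2^(r-1))`, hence `2^(r-1) ≤ log Y / log 5` and
`r ≤ 1 + log(log Y / log 5) / log 2 ≤ 1 + 2 log log Y` if `Y ≥ 5` (`log 5 > 1`, `1/log 2 < 2`;
note `log(log Y / log 5) ≥ 0` for `Y ≥ 5`; use `log (log Y / log 5) ≤ log log Y`). -/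
def StC3 : Prop := ∀ (S : Finset ℕ) (Y : ℝ), (∀ a ∈ S, 5 ≤ a) → (∀ a ∈ S, (a : ℝ) ≤ Y) →
  (∀ a ∈ S, ∀ a' ∈ S, a < a' → a ^ 2 ≤ a') → 5 ≤ Y → (S.card : ℝ) ≤ 1 + 2 * Real.log (Real.log Y)

/-- **C4** (hypotheses `StB7 StC1 StC2 StC3`). Take `y₀` from B7 for `A = 3` and `X₁` from C1. Let
`P` be given. The pairs with `log x < X₁` or with `x = p^a`, `p ∈ P`, `a ≤ 4`, are finitely many
(`x` is bounded, and `z` is determined by `x`: `z ≤ 2x` because `2x ∈ SUnit P`). For the others C1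
gives `(p,q,a,b)`, and the map to `(p, q, a)` is injective. For fixed `(p,q)` the exponents `a`
with `p^a ≤ X` satisfy C3 with `Y = 2 log X ≥ 5` (`a ≤ log X / log 2`), by C2. So for `X ≥ 16` the
number of pairs is at most `C₀ + |P|^2 (1 + 2 log log (2 log X))`. As
`log log log X ≥ log log log 16 > 0` for `X ≥ 16` and `log log (2 log X) ≤ 2 log log log X + C`,
this is at most `C log log log X`. -/
def StC4 : Prop := ∃ y₀ : ℕ, ∀ P : Finset ℕ, (∀ p ∈ P, p.Prime) →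
  (∀ p : ℕ, p.Prime → p ≤ y₀ → p ∈ P) → ∃ C : ℝ, ∀ X : ℝ, 16 ≤ X →
    {xz : ℕ × ℕ | (xz.1 : ℝ) ≤ X ∧ Consecutive (P : Set ℕ) xz.1 xz.2 ∧ IsPrimePow xz.1 ∧
      IsPrimePow xz.2}.Finite ∧
    ({xz : ℕ × ℕ | (xz.1 : ℝ) ≤ X ∧ Consecutive (P : Set ℕ) xz.1 xz.2 ∧ IsPrimePow xz.1 ∧
      IsPrimePow xz.2}.ncard : ℝ) ≤ C * Real.log (Real.log (Real.log X))

end Pool.Agent.Helper14.GS
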