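import Pool.Agent.Helper79.GS.St3

/-!
# Project GS, module TRQ: repeated squaring of the transfer matrix
-/

set_option autoImplicit false

namespace Pool.Agent.Helper14.GS

open Pool.Agent.Helper79.GS

private lemma trP_eq (n : ℕ) (a : ℕ → ℕ → ℤ) (d : ℕ) : ∀ s s' : Fin ((n + 1) * (n + 2)),
    trP n a d s.val s'.val =
      ((Matrix.of (fun s s' : Fin ((n + 1) * (n + 2)) => trE n a s s')) ^ (2 ^ d)) s s' := by
  induction d with
  | zero =>
    intro s s'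
    simp [trP]
  | succ d ih =>
    intro s s'
    rw [pow_succ 2 d, mul_two, pow_add, Matrix.mul_apply]
    show ∑ t ∈ Finset.range ((n + 1) * (n + 2)), trP n a d s.val t * trP n a d t s'.val = _
    rw [Finset.sum_range]
    apply Finset.sum_congr rfl
    intro t _
    rw [ih, ih]

theorem hTRQ (hTRF : StTRF) : StTRQ := by
  intro L a
  have h0 : 2 ^ L < (2 ^ L + 1) * (2 ^ L + 2) := by nlinarith [Nat.zero_le (2 ^ L)]
  have h1 : 2 ^ L * (2 ^ L + 2) + 2 ^ L < (2 ^ L + 1) * (2 ^ L + 2) := by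
    have : (2 ^ L + 1) * (2 ^ L + 2) = 2 ^ L * (2 ^ L + 2) + 2 ^ L + 2 := by ring
    omega
  have h := hTRF (2 ^ L) a ⟨2 ^ L, h0⟩ ⟨2 ^ L * (2 ^ L + 2) + 2 ^ L, h1⟩ rfl rfl
  have e := trP_eq (2 ^ L) a (L + 1) ⟨2 ^ L, h0⟩ ⟨2 ^ L * (2 ^ L + 2) + 2 ^ L, h1⟩
  have e2 : 2 ^ (L + 1) = 2 * 2 ^ L := by rw [pow_succ, mul_comm]
  rw [e2, h] at e
  exact e

end Pool.Agent.Helper14.GS
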